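import Pool.Agent.Z894.CP.Stm3

/-! Project ND, part 6: packing the equations into groups (intervals). -/

set_option autoImplicit false

namespace Pool.Agent.Y641.NDC

open Pool.Agent.Z894.ND

/-- the ends of the intervals of the equations -/
structure Bas (r m s : ℕ) where
  L : ℕ → ℕ
  hm : 0 < m
  hs : 0 < s
  mono : Monotone L
  zero : L 0 = 0
  top : L r = m * s

namespace Bas

variable {r m s : ℕ} (B : Bas r m s)

/-- the equation of a point -/
def it (x : ℕ) : ℕ := Nat.findGreatest (fun k => B.L k ≤ x) r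

theorem le (x : ℕ) : B.L (B.it x) ≤ x :=
  Nat.findGreatest_spec (P := fun k => B.L k ≤ x) (Nat.zero_le r)
    (by rw [B.zero]; exact Nat.zero_le _)

theorem ltr {x : ℕ} (hx : x < m * s) : B.it x < r := by
  have h1 : B.it x ≤ r := Nat.findGreatest_le _
  rcases Nat.lt_or_ge (B.it x) r with h | h
  · exact h
  · exfalso
    have h2 := B.le x
    have h3 : B.it x = r := le_antisymm h1 h
    rw [h3, B.top] at h2
    omega

theorem lt {x : ℕ} (hx : x < m * s) : x < B.L (B.it x + 1) := by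
  have h1 := B.ltr hx
  have h2 := Nat.findGreatest_is_greatest (P := fun k => B.L k ≤ x) (n := r) (k := B.it x + 1)
    (Nat.lt_succ_self _) h1
  exact not_le.1 h2

theorem uniq {x k : ℕ} (hx : x < m * s) (h1 : B.L k ≤ x) (h2 : x < B.L (k + 1)) :
    B.it x = k := by
  rcases Nat.lt_trichotomy (B.it x) k with h | h | h
  · have h3 := B.mono (show B.it x + 1 ≤ k by omega)
    have h4 := B.lt hx
    omega
  · exact h
  · have h3 := B.mono (show k + 1 ≤ B.it x by omega)
    have h4 := B.le x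
    omega

theorem itmono {x y : ℕ} (hy : y < m * s) (h : x ≤ y) : B.it x ≤ B.it y := by
  by_contra hc
  have h3 := B.mono (show B.it y + 1 ≤ B.it x by omega)
  have h4 := B.le x
  have h5 := B.lt hy
  omega

/-- the hidden parts: the ends of groups inside an interval -/
abbrev H : Type := {c : Fin m // B.L (B.it ((c.val + 1) * s - 1) + 1) ≠ (c.val + 1) * s}

/-- the last point of a part -/
def la : B.H ⊕ Fin r → ℕ :=
  Sum.elim (fun c => (c.1.val + 1) * s - 1) (fun i => B.L (i.val + 1) - 1)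

include B in
theorem inl_lt (c : Fin m) : (c.val + 1) * s - 1 < m * s := by
  have h1 : (c.val + 1) * s ≤ m * s := Nat.mul_le_mul_right s c.isLt
  have h2 : 0 < m * s := Nat.mul_pos B.hm B.hs
  omega

theorem la_lt (φ : B.H ⊕ Fin r) : B.la φ < m * s := by
  have h2 : 0 < m * s := Nat.mul_pos B.hm B.hs
  rcases φ with c | i
  · exact B.inl_lt c.1
  · show B.L (i.val + 1) - 1 < m * s
    have h1 := B.mono (show i.val + 1 ≤ r from i.isLt)
    rw [B.top] at h1
    omega

/-- valid parts -/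
def vld : B.H ⊕ Fin r → Prop :=
  Sum.elim (fun _ => True) (fun i => B.L i.val < B.L (i.val + 1))

theorem itm_inr {i : Fin r} (h : B.vld (Sum.inr i)) : B.it (B.la (Sum.inr i)) = i.val := by
  have h' : B.L i.val < B.L (i.val + 1) := h
  refine B.uniq (B.la_lt _) ?_ ?_
  · show B.L i.val ≤ B.L (i.val + 1) - 1
    omega
  · show B.L (i.val + 1) - 1 < B.L (i.val + 1)
    omega

/-- the group of a part -/
def gr (φ : B.H ⊕ Fin r) : ℕ := B.la φ / s

theorem gr_lt (φ : B.H ⊕ Fin r) : B.gr φ < m := (Nat.div_lt_iff_lt_mul B.hs).2 (B.la_lt φ)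

/-- the begin of a part -/
def a (φ : B.H ⊕ Fin r) : ℕ := max (B.L (B.it (B.la φ))) (B.gr φ * s)

/-- the end of a part -/
def b (φ : B.H ⊕ Fin r) : ℕ := B.la φ + 1

theorem gr_a (φ : B.H ⊕ Fin r) : B.gr φ * s ≤ B.a φ := le_max_right _ _

theorem gr_la (φ : B.H ⊕ Fin r) : B.gr φ * s ≤ B.la φ := Nat.div_mul_le_self _ _

theorem a_la (φ : B.H ⊕ Fin r) : B.a φ ≤ B.la φ := max_le (B.le _) (B.gr_la φ)

theorem la_gr (φ : B.H ⊕ Fin r) : B.la φ < B.gr φ * s + s := Nat.lt_div_mul_add B.hs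

theorem disj {φ ψ : B.H ⊕ Fin r} (h : B.a φ < B.a ψ) : B.b φ ≤ B.a ψ := by
  by_contra hc
  have h1 : B.a ψ ≤ B.la φ := by unfold b at hc; omega
  have h2 : B.L (B.it (B.la ψ)) ≤ B.a ψ := le_max_left _ _
  have h3 : B.gr ψ * s ≤ B.a ψ := B.gr_a ψ
  have key : B.it (B.la ψ) ≤ B.it (B.la φ) ∧ B.gr ψ ≤ B.gr φ := by
    rcases Nat.le_total (B.la ψ) (B.la φ) with h4 | h4
    · exact ⟨B.itmono (B.la_lt φ) h4, Nat.div_le_div_right h4⟩
    · constructor
      · have h5 := B.uniq (x := B.la φ) (k := B.it (B.la ψ)) (B.la_lt φ) (by omega)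
          (lt_of_le_of_lt h4 (B.lt (B.la_lt ψ)))
        omega
      · exact (Nat.le_div_iff_mul_le B.hs).2 (by omega)
  have h4 : B.a ψ ≤ B.a φ := max_le_max (B.mono key.1) (Nat.mul_le_mul_right s key.2)
  omega

theorem same {φ ψ : B.H ⊕ Fin r} (h : B.a φ = B.a ψ) :
    B.it (B.la φ) = B.it (B.la ψ) ∧ B.gr φ = B.gr ψ := by
  have e : ∀ φ : B.H ⊕ Fin r, B.it (B.a φ) = B.it (B.la φ) ∧ B.a φ / s = B.gr φ := by
    intro φ
    constructor
    · exact B.uniq (lt_of_le_of_lt (B.a_la φ) (B.la_lt φ)) (le_max_left _ _)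
        (lt_of_le_of_lt (B.a_la φ) (B.lt (B.la_lt φ)))
    · refine Nat.div_eq_of_lt_le (B.gr_a φ) ?_
      have h1 := B.a_la φ
      have h2 := B.la_gr φ
      rw [Nat.succ_mul]
      omega
  rw [← (e φ).1, ← (e φ).2, ← (e ψ).1, ← (e ψ).2, h]
  exact ⟨rfl, rfl⟩

theorem inj {φ ψ : B.H ⊕ Fin r} (hφ : B.vld φ) (hψ : B.vld ψ) (h : B.a φ = B.a ψ) : φ = ψ := by
  obtain ⟨h1, h2⟩ := B.same h
  have mixed : ∀ (c : B.H) (i : Fin r), B.vld (Sum.inr i) →
      B.it (B.la (Sum.inl c)) = B.it (B.la (Sum.inr i)) →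
      B.gr (Sum.inl c) = B.gr (Sum.inr i) → False := by
    intro c i hi h1 h2
    have h3 : B.L (B.it (B.la (Sum.inl c)) + 1) ≠ (c.1.val + 1) * s := c.2
    rw [h1, B.itm_inr hi] at h3
    have h4 := B.lt (B.la_lt (Sum.inl c))
    rw [h1, B.itm_inr hi] at h4
    have h5 : B.la (Sum.inl c) = (c.1.val + 1) * s - 1 := rfl
    have h6 : B.la (Sum.inr i) = B.L (i.val + 1) - 1 := rfl
    have h7 := B.la_gr (Sum.inl c)
    have h8 := B.gr_la (Sum.inr i)
    have h9 := B.la_gr (Sum.inr i)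
    have h10 := B.gr_la (Sum.inl c)
    rw [h2] at h7 h10
    have h11 : 0 < (c.1.val + 1) * s := Nat.mul_pos (Nat.succ_pos _) B.hs
    have h12 : (c.1.val + 1) * s = B.gr (Sum.inr i) * s + s := by
      have h13 : B.gr (Sum.inl c) = c.1.val := by
        show ((c.1.val + 1) * s - 1) / s = c.1.val
        refine Nat.div_eq_of_lt_le ?_ ?_
        · rw [Nat.succ_mul]
          have := B.hs
          omega
        · omega
      rw [← h2, h13, Nat.succ_mul]
    omega
  rcases φ with c | i <;> rcases ψ with c' | i'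
  · have e : ∀ c : B.H, B.gr (Sum.inl c) = c.1.val := by
      intro c
      show ((c.1.val + 1) * s - 1) / s = c.1.val
      have h11 : 0 < (c.1.val + 1) * s := Nat.mul_pos (Nat.succ_pos _) B.hs
      refine Nat.div_eq_of_lt_le ?_ ?_
      · rw [Nat.succ_mul]
        have := B.hs
        omega
      · omega
    rw [e, e] at h2
    exact congrArg Sum.inl (Subtype.ext (Fin.ext h2))
  · exact (mixed c i' hψ h1 h2).elim
  · exact (mixed c' i hφ h1.symm h2.symm).elim
  · rw [B.itm_inr hφ, B.itm_inr hψ] at h1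
    exact congrArg Sum.inr (Fin.ext h1)

/-- the previous equation -/
theorem prv (φ : B.H ⊕ Fin r) (h : B.a φ ≠ B.gr φ * s) :
    B.L (B.it (B.a φ - 1)) < B.L (B.it (B.a φ - 1) + 1) ∧
      B.L (B.it (B.a φ - 1) + 1) = B.a φ ∧ B.it (B.a φ - 1) < B.it (B.la φ) ∧
      (B.a φ - 1) / s = B.gr φ := by
  have h0 := B.gr_a φ
  have h1 := B.a_la φ
  have h2 := B.la_lt φ
  have h3 := B.la_gr φ
  have h4 : B.a φ = B.L (B.it (B.la φ)) := by
    unfold a at h ⊢
    rcases Nat.le_total (B.L (B.it (B.la φ))) (B.gr φ * s) with h5 | h5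
    · rw [max_eq_right h5] at h
      exact absurd rfl h
    · exact max_eq_left h5
  have h5 : B.a φ - 1 < m * s := by omega
  have h6 := B.le (B.a φ - 1)
  have h7 := B.lt h5
  have h8 : B.it (B.a φ - 1) < B.it (B.la φ) := by
    by_contra hc
    have h9 := B.mono (show B.it (B.la φ) ≤ B.it (B.a φ - 1) by omega)
    omega
  have h9 := B.mono (show B.it (B.a φ - 1) + 1 ≤ B.it (B.la φ) by omega)
  refine ⟨by omega, by omega, h8, ?_⟩
  refine Nat.div_eq_of_lt_le (by omega) ?_
  rw [Nat.succ_mul]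
  omega

/-- the part of a point -/
def part (x : ℕ) (hx : x < m * s) : B.H ⊕ Fin r :=
  if h : B.L (B.it x + 1) ≤ (x / s + 1) * s then Sum.inr ⟨B.it x, B.ltr hx⟩
  else Sum.inl ⟨⟨x / s, (Nat.div_lt_iff_lt_mul B.hs).2 hx⟩, by
    have h1 : x < x / s * s + s := Nat.lt_div_mul_add B.hs
    have h2 := B.le x
    have h3 : (x / s + 1) * s = x / s * s + s := Nat.succ_mul _ _
    have h4 : B.it ((x / s + 1) * s - 1) = B.it x := by
      refine B.uniq (B.inl_lt ⟨x / s, (Nat.div_lt_iff_lt_mul B.hs).2 hx⟩) ?_ ?_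
      · omega
      · omega
    show B.L (B.it ((x / s + 1) * s - 1) + 1) ≠ (x / s + 1) * s
    rw [h4]
    omega⟩

theorem part_spec (x : ℕ) (hx : x < m * s) : B.vld (B.part x hx) ∧
    B.it (B.la (B.part x hx)) = B.it x ∧ B.gr (B.part x hx) = x / s ∧
      x ≤ B.la (B.part x hx) := by
  have h1 : x < x / s * s + s := Nat.lt_div_mul_add B.hs
  have h0 : x / s * s ≤ x := Nat.div_mul_le_self _ _
  have h2 := B.le x
  have h3 : (x / s + 1) * s = x / s * s + s := Nat.succ_mul _ _
  have h4 := B.lt hx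
  unfold part
  split_ifs with h
  · have hl : B.la (Sum.inr ⟨B.it x, B.ltr hx⟩) = B.L (B.it x + 1) - 1 := rfl
    have hv : B.vld (Sum.inr ⟨B.it x, B.ltr hx⟩) := by
      show B.L (B.it x) < B.L (B.it x + 1)
      omega
    refine ⟨hv, B.itm_inr hv, ?_, by omega⟩
    unfold gr
    rw [hl]
    refine Nat.div_eq_of_lt_le (by omega) ?_
    rw [Nat.succ_mul]
    omega
  · refine ⟨trivial, ?_, ?_, ?_⟩
    · refine B.uniq (B.la_lt _) ?_ ?_
      · show B.L (B.it x) ≤ (x / s + 1) * s - 1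
        omega
      · show (x / s + 1) * s - 1 < B.L (B.it x + 1)
        omega
    · show ((x / s + 1) * s - 1) / s = x / s
      refine Nat.div_eq_of_lt_le (by omega) ?_
      rw [Nat.succ_mul]
      omega
    · show x ≤ (x / s + 1) * s - 1
      omega

theorem fst_spec (c : Fin m) (h : c.val * s < m * s) :
    B.gr (B.part (c.val * s) h) = c.val ∧ B.a (B.part (c.val * s) h) = c.val * s := by
  obtain ⟨h1, h2, h3, h4⟩ := B.part_spec (c.val * s) h
  have h5 : c.val * s / s = c.val := Nat.mul_div_cancel _ B.hs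
  rw [h5] at h3
  refine ⟨h3, ?_⟩
  unfold a
  rw [h2, h3]
  exact max_eq_right (B.le _)

theorem lst_spec (c : Fin m) (h : (c.val + 1) * s - 1 < m * s) :
    B.gr (B.part ((c.val + 1) * s - 1) h) = c.val ∧
      B.b (B.part ((c.val + 1) * s - 1) h) = (c.val + 1) * s := by
  obtain ⟨h1, h2, h3, h4⟩ := B.part_spec ((c.val + 1) * s - 1) h
  have h6 := B.hs
  have h7 : (c.val + 1) * s = c.val * s + s := Nat.succ_mul _ _
  have h5 : ((c.val + 1) * s - 1) / s = c.val := by
    refine Nat.div_eq_of_lt_le (by omega) ?_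
    rw [Nat.succ_mul]
    omega
  rw [h5] at h3
  refine ⟨h3, ?_⟩
  have h8 := B.la_gr (B.part ((c.val + 1) * s - 1) h)
  rw [h3] at h8
  unfold b
  omega

open Classical in
/-- the data -/
noncomputable def D (p : ℕ) : Dat r m B.H where
  it h := ⟨B.it (B.la (Sum.inl h)), B.ltr (B.la_lt _)⟩
  used i := B.L i.val < B.L (i.val + 1)
  t φ := if B.vld φ then B.b φ - B.a φ else 1
  prev φ := if B.vld φ ∧ B.a φ ≠ B.gr φ * s then
    some ⟨B.it (B.a φ - 1), B.ltr (by have := B.a_la φ; have := B.la_lt φ; omega)⟩ else none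
  grp φ := ⟨B.gr φ, B.gr_lt φ⟩
  fst c := B.part (c.val * s) ((Nat.mul_lt_mul_right B.hs).2 c.isLt)
  lst c := B.part ((c.val + 1) * s - 1) (B.inl_lt c)
  pi φ := if B.vld φ then p ^ (B.a φ - B.gr φ * s) else 0

theorem valid_iff (p : ℕ) (φ : B.H ⊕ Fin r) : (B.D p).valid φ ↔ B.vld φ := by
  rcases φ with c | i
  · refine ⟨fun _ => trivial, fun _ => ?_⟩
    show B.L (B.it (B.la (Sum.inl c))) < B.L (B.it (B.la (Sum.inl c)) + 1)
    have h1 := B.le (B.la (Sum.inl c))
    have h2 := B.lt (B.la_lt (Sum.inl c))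
    omega
  · exact Iff.rfl

open Classical in
/-- the exponents of the forms -/
noncomputable def rho (p : ℕ) (φ ψ : B.H ⊕ Fin r) : ℕ :=
  if B.vld ψ ∧ B.gr ψ = B.gr φ ∧ B.a ψ ≤ B.a φ then p ^ (B.a ψ - B.gr ψ * s) else 0

/-- the equations of the parts -/
def Hyp (p : ℕ) {R : Type} [CommRing R] (w T : B.H ⊕ Fin r → R) : Prop :=
  ∀ φ, (B.D p).valid φ → w φ ^ (p ^ (B.D p).t φ) =
    (B.D p).pv (fun i => w (Sum.inr i)) φ * T φ

open Classical in
theorem main (p : ℕ) {R : Type} [CommRing R] (w T : B.H ⊕ Fin r → R) (hyp : B.Hyp p w T) :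
    ∀ (k : ℕ) (φ : B.H ⊕ Fin r), B.a φ = k → B.vld φ →
      w φ ^ (p ^ (B.b φ - B.gr φ * s)) = ∏ ψ, T ψ ^ B.rho p φ ψ := by
  intro k
  induction k using Nat.strong_induction_on with
  | _ k ih =>
    intro φ hk hv
    have hab : B.a φ < B.b φ := by
      have := B.a_la φ
      unfold b
      omega
    have hga := B.gr_a φ
    have h0 := hyp φ ((B.valid_iff p φ).2 hv)
    have ht : (B.D p).t φ = B.b φ - B.a φ := if_pos hv
    rw [ht] at h0
    by_cases hc : B.a φ = B.gr φ * s
    · have hp : (B.D p).prev φ = none := if_neg (fun h => h.2 hc)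
      have hpv : (B.D p).pv (fun i => w (Sum.inr i)) φ = 1 := by
        unfold Dat.pv
        rw [hp]
        rfl
      rw [hpv, one_mul, hc] at h0
      rw [h0, Finset.prod_eq_single φ]
      · unfold rho
        rw [if_pos ⟨hv, rfl, le_rfl⟩, hc, Nat.sub_self, pow_zero, pow_one]
      · intro ψ _ hne
        unfold rho
        rw [if_neg, pow_zero]
        rintro ⟨h1, h2, h3⟩
        have h4 := B.gr_a ψ
        rw [h2] at h4
        exact hne (B.inj h1 hv (by omega))
      · intro h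
        exact absurd (Finset.mem_univ _) h
    · obtain ⟨h1, h2, h3, h4⟩ := B.prv φ hc
      have hlt : B.it (B.a φ - 1) < r :=
        B.ltr (by have := B.a_la φ; have := B.la_lt φ; omega)
      have hp : (B.D p).prev φ = some ⟨B.it (B.a φ - 1), hlt⟩ := if_pos ⟨hv, hc⟩
      have hpv : (B.D p).pv (fun i => w (Sum.inr i)) φ =
          w (Sum.inr ⟨B.it (B.a φ - 1), hlt⟩) := by
        unfold Dat.pv
        rw [hp]
        rfl
      set χ : B.H ⊕ Fin r := Sum.inr ⟨B.it (B.a φ - 1), hlt⟩ with hχ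
      have hvχ : B.vld χ := h1
      have hlaχ : B.la χ = B.a φ - 1 := by
        show B.L (B.it (B.a φ - 1) + 1) - 1 = B.a φ - 1
        rw [h2]
      have hpos : 0 < B.a φ := by omega
      have hbχ : B.b χ = B.a φ := by
        unfold b
        rw [hlaχ]
        omega
      have hgχ : B.gr χ = B.gr φ := by
        unfold gr at h4 ⊢
        rw [hlaχ]
        exact h4
      have haχ : B.a χ < B.a φ := by
        have := B.a_la χ
        omega
      have e1 := ih (B.a χ) (by omega) χ rfl hvχ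
      rw [hbχ, hgχ] at e1
      rw [hpv] at h0
      have e2 : B.b φ - B.gr φ * s = (B.b φ - B.a φ) + (B.a φ - B.gr φ * s) := by omega
      rw [e2, pow_add, pow_mul, h0, mul_pow, e1]
      have e3 : ∀ ψ, B.rho p φ ψ = B.rho p χ ψ +
          (if ψ = φ then p ^ (B.a φ - B.gr φ * s) else 0) := by
        intro ψ
        unfold rho
        by_cases hψ : ψ = φ
        · rw [if_pos hψ, hψ, if_pos ⟨hv, rfl, le_rfl⟩, if_neg, zero_add]
          rintro ⟨-, -, h⟩
          omega
        · rw [if_neg hψ, add_zero]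
          have hiff : (B.vld ψ ∧ B.gr ψ = B.gr φ ∧ B.a ψ ≤ B.a φ) ↔
              (B.vld ψ ∧ B.gr ψ = B.gr χ ∧ B.a ψ ≤ B.a χ) := by
            rw [hgχ]
            constructor
            · rintro ⟨h5, h6, h7⟩
              refine ⟨h5, h6, ?_⟩
              by_contra h8
              have h9 := B.disj (not_le.1 h8)
              rw [hbχ] at h9
              exact hψ (B.inj h5 hv (le_antisymm h7 h9))
            · rintro ⟨h5, h6, h7⟩
              exact ⟨h5, h6, by omega⟩
          simp only [hiff]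
      have e4 : ∏ ψ, T ψ ^ (if ψ = φ then p ^ (B.a φ - B.gr φ * s) else 0) =
          T φ ^ p ^ (B.a φ - B.gr φ * s) := by
        rw [Finset.prod_eq_single φ]
        · rw [if_pos rfl]
        · intro ψ _ hne
          rw [if_neg hne, pow_zero]
        · intro h
          exact absurd (Finset.mem_univ _) h
      have e5 : ∏ ψ, T ψ ^ B.rho p φ ψ = (∏ ψ, T ψ ^ B.rho p χ ψ) *
          T φ ^ p ^ (B.a φ - B.gr φ * s) := by
        rw [← e4, ← Finset.prod_mul_distrib]
        exact Finset.prod_congr rfl fun ψ _ => by rw [e3 ψ, pow_add]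
      rw [e5]

/-- the sum of the exponents, from the identity for constants -/
theorem two {p : ℕ} (hp : p.Prime) {ρ : B.H ⊕ Fin r → ℕ} {k : ℕ} {φ : B.H ⊕ Fin r}
    (h : ∀ (w T : B.H ⊕ Fin r → ℤ), B.Hyp p w T → w φ ^ k = ∏ ψ, T ψ ^ ρ ψ) :
    ∑ ψ, ρ ψ * (B.D p).e p ψ = k := by
  have hyp : B.Hyp p (fun _ => (2 : ℤ)) (fun φ => 2 ^ (B.D p).e p φ) := by
    intro φ _
    have h1 : 1 ≤ p ^ (B.D p).t φ := Nat.one_le_pow _ _ hp.pos
    have h2 : (B.D p).pv (fun _ => (2 : ℤ)) φ * 2 ^ (B.D p).e p φ = 2 ^ (p ^ (B.D p).t φ) := by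
      unfold Dat.pv Dat.e
      cases h : (B.D p).prev φ with
      | none =>
        show (1 : ℤ) * 2 ^ (p ^ (B.D p).t φ - 0) = _
        rw [one_mul, Nat.sub_zero]
      | some i =>
        show (2 : ℤ) * 2 ^ (p ^ (B.D p).t φ - 1) = _
        rw [← pow_succ', Nat.sub_add_cancel h1]
    exact h2.symm
  have h1 := h _ _ hyp
  have h2 : ∏ ψ, ((2 : ℤ) ^ (B.D p).e p ψ) ^ ρ ψ = 2 ^ (∑ ψ, ρ ψ * (B.D p).e p ψ) := by
    rw [← Finset.prod_pow_eq_pow_sum]
    refine Finset.prod_congr rfl fun ψ _ => ?_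
    rw [← pow_mul, mul_comm]
  rw [h2] at h1
  have h3 : (2 : ℕ) ^ k = 2 ^ (∑ ψ, ρ ψ * (B.D p).e p ψ) := by exact_mod_cast h1
  exact (Nat.pow_right_injective le_rfl h3).symm

theorem vld_fst (p : ℕ) (c : Fin m) : B.vld ((B.D p).fst c) :=
  (B.part_spec (c.val * s) ((Nat.mul_lt_mul_right B.hs).2 c.isLt)).1

theorem vld_lst (p : ℕ) (c : Fin m) : B.vld ((B.D p).lst c) :=
  (B.part_spec ((c.val + 1) * s - 1) (B.inl_lt c)).1

theorem gr_fst (p : ℕ) (c : Fin m) : B.gr ((B.D p).fst c) = c.val :=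
  (B.fst_spec c ((Nat.mul_lt_mul_right B.hs).2 c.isLt)).1

theorem a_fst (p : ℕ) (c : Fin m) : B.a ((B.D p).fst c) = c.val * s :=
  (B.fst_spec c ((Nat.mul_lt_mul_right B.hs).2 c.isLt)).2

theorem gr_lst (p : ℕ) (c : Fin m) : B.gr ((B.D p).lst c) = c.val :=
  (B.lst_spec c (B.inl_lt c)).1

theorem b_lst (p : ℕ) (c : Fin m) : B.b ((B.D p).lst c) = (c.val + 1) * s :=
  (B.lst_spec c (B.inl_lt c)).2

theorem fst_rho (p : ℕ) (c : Fin m) (ψ : B.H ⊕ Fin r) (R : Type) [CommRing R]
    (T : B.H ⊕ Fin r → R) [DecidableEq B.H] [DecidableEq (B.H ⊕ Fin r)] :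
    T ψ ^ B.rho p ((B.D p).lst c) ψ =
      (if ψ = (B.D p).fst c then T ψ else 1) *
        (if (B.D p).grp ψ = c ∧ ψ ≠ (B.D p).fst c then T ψ ^ (B.D p).pi ψ else 1) := by
  classical
  have hvf := B.vld_fst p c
  have hfg := B.gr_fst p c
  have hfa := B.a_fst p c
  have hlg := B.gr_lst p c
  have hlb := B.b_lst p c
  have hs' : (c.val + 1) * s = c.val * s + s := Nat.succ_mul _ _
  have hle : ∀ ψ, B.gr ψ = c.val → B.a ψ ≤ B.a ((B.D p).lst c) := by
    intro ψ h
    by_contra hc
    have h1 := B.disj (not_le.1 hc)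
    have h2 := B.a_la ψ
    have h3 := B.la_gr ψ
    rw [h] at h3
    omega
  by_cases h1 : ψ = (B.D p).fst c
  · rw [if_pos h1, if_neg (fun h => h.2 h1), mul_one]
    unfold rho
    rw [h1, if_pos ⟨hvf, by rw [hfg, hlg], hle _ hfg⟩, hfa, hfg, Nat.sub_self, pow_zero, pow_one]
  · rw [if_neg h1, one_mul]
    by_cases h2 : (B.D p).grp ψ = c
    · have h3 : B.gr ψ = c.val := congrArg Fin.val h2
      rw [if_pos ⟨h2, h1⟩]
      congr 1
      show B.rho p ((B.D p).lst c) ψ = if B.vld ψ then p ^ (B.a ψ - B.gr ψ * s) else 0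
      unfold rho
      have h4 : (B.vld ψ ∧ B.gr ψ = B.gr ((B.D p).lst c) ∧ B.a ψ ≤ B.a ((B.D p).lst c)) ↔
          B.vld ψ := ⟨fun h => h.1, fun h => ⟨h, by rw [h3, hlg], hle _ h3⟩⟩
      simp only [h4]
    · rw [if_neg (fun h => h2 h.1)]
      unfold rho
      rw [if_neg, pow_zero]
      rintro ⟨-, h4, -⟩
      exact h2 (Fin.ext (h4.trans hlg))

theorem chain' (p : ℕ) (c : Fin m) (R : Type) [CommRing R] (w T : B.H ⊕ Fin r → R)
    (hyp : B.Hyp p w T) : w ((B.D p).lst c) ^ (p ^ s) = T ((B.D p).fst c) *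
      ∏ φ ∈ Finset.univ.filter (fun φ => (B.D p).grp φ = c ∧ φ ≠ (B.D p).fst c),
        T φ ^ (B.D p).pi φ := by
  classical
  have hvl := B.vld_lst p c
  have hlg := B.gr_lst p c
  have hlb := B.b_lst p c
  have hs' : (c.val + 1) * s = c.val * s + s := Nat.succ_mul _ _
  have h1 := B.main p w T hyp _ _ rfl hvl
  rw [hlb, hlg, show (c.val + 1) * s - c.val * s = s by omega] at h1
  rw [h1, Finset.prod_filter, Finset.prod_congr rfl fun ψ _ => B.fst_rho p c ψ R T,
    Finset.prod_mul_distrib, Finset.prod_ite_eq' Finset.univ ((B.D p).fst c),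
    if_pos (Finset.mem_univ _)]

theorem good {p : ℕ} (hp : p.Prime) : (B.D p).Good p s := by
  classical
  refine ⟨?_, ?_, ?_, ?_, ?_, ?_, ?_, ?_, ?_, ?_, ?_⟩
  · -- tpos
    intro φ
    show 1 ≤ if B.vld φ then B.b φ - B.a φ else 1
    split_ifs
    · have := B.a_la φ
      unfold b
      omega
    · exact le_rfl
  · -- tle
    intro φ
    show (if B.vld φ then B.b φ - B.a φ else 1) ≤ s
    split_ifs
    · have := B.gr_a φ
      have := B.la_gr φ
      unfold b
      omega
    · exact B.hs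
  · -- itused
    intro h
    exact (B.valid_iff p (Sum.inl h)).2 trivial
  · -- prevlt
    intro φ i h
    by_cases hc : B.vld φ ∧ B.a φ ≠ B.gr φ * s
    · obtain ⟨h1, h2, h3, h4⟩ := B.prv φ hc.2
      have hlt : B.it (B.a φ - 1) < r :=
        B.ltr (by have := B.a_la φ; have := B.la_lt φ; omega)
      have hp : (B.D p).prev φ = some ⟨B.it (B.a φ - 1), hlt⟩ := if_pos hc
      rw [hp] at h
      have hi : (⟨B.it (B.a φ - 1), hlt⟩ : Fin r) = i := Option.some.inj h
      subst hi
      refine ⟨h1, ?_⟩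
      rcases φ with c | j
      · exact h3
      · rw [B.itm_inr hc.1] at h3
        exact h3
    · have hp : (B.D p).prev φ = none := if_neg hc
      rw [hp] at h
      exact absurd h (by simp)
  · -- comp
    intro h
    refine if_neg (fun hc => hc.2 ?_)
    have hv : B.vld (Sum.inr ((B.D p).it h)) := hc.1
    have h1 := B.itm_inr hv
    have h2 : ((B.D p).it h).val = B.it (B.la (Sum.inl h)) := rfl
    have h3 : B.L (B.it (B.la (Sum.inl h)) + 1) ≠ (h.1.val + 1) * s := h.2
    have h4 := B.lt (B.la_lt (Sum.inl h))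
    have h5 : B.la (Sum.inl h) = (h.1.val + 1) * s - 1 := rfl
    have h6 := B.le (B.la (Sum.inl h))
    have h7 : B.la (Sum.inr ((B.D p).it h)) = B.L (B.it (B.la (Sum.inl h)) + 1) - 1 := rfl
    have h8 : h.1.val + 1 ≤ B.gr (Sum.inr ((B.D p).it h)) := by
      unfold gr
      rw [Nat.le_div_iff_mul_le B.hs]
      omega
    have h9 := Nat.mul_le_mul_right s h8
    have h10 : 0 < (h.1.val + 1) * s := Nat.mul_pos (Nat.succ_pos _) B.hs
    unfold a
    rw [h1, h2]
    exact max_eq_right (by omega)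
  · -- grpfst
    intro c
    exact Fin.ext (B.gr_fst p c)
  · -- pdvd
    intro φ hne
    show p ∣ if B.vld φ then p ^ (B.a φ - B.gr φ * s) else 0
    split_ifs with hv
    · refine dvd_pow_self p ?_
      intro h0
      apply hne
      have h1 := B.gr_a φ
      refine B.inj hv (B.vld_fst p _) ?_
      have f3 : B.a ((B.D p).fst ((B.D p).grp φ)) = B.gr φ * s := B.a_fst p _
      rw [f3]
      omega
    · exact dvd_zero p
  · -- degree
    intro c
    have h := B.two hp (k := p ^ s) (φ := (B.D p).lst c) (ρ := B.rho p ((B.D p).lst c))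
      (fun w T hyp => by
        have h1 := B.main p w T hyp _ _ rfl (B.vld_lst p c)
        have hlg := B.gr_lst p c
        have hlb := B.b_lst p c
        have hs' : (c.val + 1) * s = c.val * s + s := Nat.succ_mul _ _
        rw [hlb, hlg, show (c.val + 1) * s - c.val * s = s by omega] at h1
        exact h1)
    have h2 : ∀ ψ, B.rho p ((B.D p).lst c) ψ * (B.D p).e p ψ =
        (if ψ = (B.D p).fst c then (B.D p).e p ψ else 0) +
          (if (B.D p).grp ψ = c ∧ ψ ≠ (B.D p).fst c then (B.D p).pi ψ * (B.D p).e p ψ else 0) := by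
      intro ψ
      have h4 : B.rho p ((B.D p).lst c) ψ = (if ψ = (B.D p).fst c then 1 else 0) +
          (if (B.D p).grp ψ = c ∧ ψ ≠ (B.D p).fst c then (B.D p).pi ψ else 0) := by
        have h5 := B.fst_rho p c ψ ℤ (fun _ => 2)
        beta_reduce at h5
        have h6 : (2 : ℤ) ^ B.rho p ((B.D p).lst c) ψ =
            2 ^ ((if ψ = (B.D p).fst c then 1 else 0) +
          (if (B.D p).grp ψ = c ∧ ψ ≠ (B.D p).fst c then (B.D p).pi ψ else 0)) := by
          rw [h5, pow_add]
          congr 1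
          · split_ifs
            · rw [pow_one]
            · rw [pow_zero]
          · split_ifs
            · rfl
            · rw [pow_zero]
        have h7 : (2 : ℕ) ^ B.rho p ((B.D p).lst c) ψ =
            2 ^ ((if ψ = (B.D p).fst c then 1 else 0) +
          (if (B.D p).grp ψ = c ∧ ψ ≠ (B.D p).fst c then (B.D p).pi ψ else 0)) := by
          exact_mod_cast h6
        exact Nat.pow_right_injective le_rfl h7
      rw [h4, add_mul]
      congr 1
      · split_ifs
        · rw [one_mul]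
        · rw [zero_mul]
      · split_ifs
        · rfl
        · rw [zero_mul]
    rw [Finset.sum_congr rfl fun ψ _ => h2 ψ, Finset.sum_add_distrib,
      Finset.sum_ite_eq' Finset.univ ((B.D p).fst c), if_pos (Finset.mem_univ _)] at h
    rw [Finset.sum_filter]
    exact h
  · -- lstvalid
    intro c
    exact (B.valid_iff p _).2 (B.vld_lst p c)
  · -- chain
    intro c R _ w T hyp
    exact B.chain' p c R w T hyp
  · -- integral
    intro φ hφ
    have hv := (B.valid_iff p φ).1 hφ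
    have h := B.two hp (k := p ^ (B.b φ - B.gr φ * s)) (φ := φ) (ρ := B.rho p φ)
      (fun w T hyp => B.main p w T hyp _ _ rfl hv)
    refine ⟨B.rho p φ, ?_, fun R _ w T hyp => ?_⟩
    · rw [h]
      exact pow_pos hp.pos _
    · rw [h]
      exact B.main p w T hyp _ _ rfl hv

theorem tot_le (p : ℕ) (i : Fin r) (hi : B.L i.val < B.L (i.val + 1)) :
    (B.D p).tot i ≤ B.L (i.val + 1) - B.L i.val := by
  classical
  have hvi : B.vld (Sum.inr i) := hi
  set S : Finset B.H := Finset.univ.filter (fun h => (B.D p).it h = i) with hS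
  set U : Finset (B.H ⊕ Fin r) := insert (Sum.inr i) (S.map ⟨Sum.inl, Sum.inl_injective⟩) with hU
  have hUv : ∀ φ ∈ U, B.vld φ ∧ B.it (B.la φ) = i.val := by
    intro φ hφ
    rw [hU, Finset.mem_insert, Finset.mem_map] at hφ
    rcases hφ with rfl | ⟨h, hh, rfl⟩
    · exact ⟨hvi, B.itm_inr hvi⟩
    · rw [hS, Finset.mem_filter] at hh
      exact ⟨trivial, congrArg Fin.val hh.2⟩
  have h1 : (B.D p).tot i = ∑ φ ∈ U, (Finset.Ico (B.a φ) (B.b φ)).card := by
    have ht : ∀ φ, B.vld φ → (B.D p).t φ = (Finset.Ico (B.a φ) (B.b φ)).card := by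
      intro φ hφ
      rw [Nat.card_Ico]
      exact if_pos hφ
    rw [hU, Finset.sum_insert, Finset.sum_map]
    · unfold Dat.tot
      rw [ht _ hvi]
      congr 1
      exact Finset.sum_congr rfl fun h _ => ht _ trivial
    · rw [Finset.mem_map]
      rintro ⟨h, -, hh⟩
      exact absurd hh (by simp)
  rw [h1, ← Finset.card_biUnion, ← Nat.card_Ico]
  · refine Finset.card_le_card fun x hx => ?_
    rw [Finset.mem_biUnion] at hx
    obtain ⟨φ, hφ, hx⟩ := hx
    obtain ⟨h2, h3⟩ := hUv φ hφ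
    rw [Finset.mem_Ico] at hx ⊢
    have h4 : B.L (B.it (B.la φ)) ≤ B.a φ := le_max_left _ _
    have h5 := B.lt (B.la_lt φ)
    have h6 : B.b φ = B.la φ + 1 := rfl
    rw [h3] at h4 h5
    omega
  · intro φ hφ ψ hψ hne
    rw [Function.onFun, Finset.disjoint_left]
    intro x hx hy
    rw [Finset.mem_Ico] at hx hy
    rcases Nat.lt_trichotomy (B.a φ) (B.a ψ) with h | h | h
    · have := B.disj h
      omega
    · exact hne (B.inj (hUv φ hφ).1 (hUv ψ hψ).1 h)
    · have := B.disj h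
      omega

end Bas

theorem comb_holds : Pool.Agent.Z894.ND.NComb := by
  classical
  intro r m s p v hp hm hs hv
  let u : ℕ → ℕ := fun k => if h : k < r then v ⟨k, h⟩ else 0
  have hsum : ∑ j ∈ Finset.range r, u j = ∑ i, v i := by
    rw [Finset.sum_range]
    exact Finset.sum_congr rfl fun i _ => dif_pos i.isLt
  let B : Bas r m s :=
    { L := fun k => min (∑ j ∈ Finset.range k, u j) (m * s)
      hm := hm
      hs := hs
      mono := by
        intro k l hkl
        exact min_le_min (Finset.sum_le_sum_of_subset (Finset.range_subset_range.2 hkl)) le_rfl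
      zero := by simp
      top := by
        show min (∑ j ∈ Finset.range r, u j) (m * s) = m * s
        rw [hsum]
        exact min_eq_right hv }
  refine ⟨B.H, inferInstance, inferInstance, B.D p, B.good hp, fun i hi => ?_⟩
  have h1 := B.tot_le p i hi
  have h2 : B.L (i.val + 1) - B.L i.val ≤ v i := by
    show min (∑ j ∈ Finset.range (i.val + 1), u j) (m * s) -
      min (∑ j ∈ Finset.range i.val, u j) (m * s) ≤ v i
    have h3 : u i.val = v i := dif_pos i.isLt
    rw [Finset.sum_range_succ, h3]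
    omega
  exact h1.trans h2

end Pool.Agent.Y641.NDC
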