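import Pool.Agent.Y772.ND.Stm
import Pool.Agent.H370R2.NT

/-!
# Project ND, part LOW: the mean square of the coefficients from a Mertens type lower bound
-/

set_option autoImplicit false

open Complex MeasureTheory
open scoped ComplexConjugate

namespace Pool.Agent.Y641.ND

open Pool.Agent.Y772.ND

/-- lower bound for the weight -/
theorem Wz_lower (R : ℝ → ℝ) (hR : Continuous R) (r0 : ℝ) (hr0 : 0 < r0)
    (h1 : ∀ α ∈ Set.Icc (0 : ℝ) (3 / 4), r0 ≤ R α) (h2 : ∀ α ∈ Set.Icc (0 : ℝ) 1, 0 ≤ R α)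
    (Λ l : ℝ) (hΛ : 4 ≤ Λ) (hl0 : 0 ≤ l) (hl : l ≤ Λ / 2) :
    r0 * Real.exp (-(1 / 2)) / Λ ≤ Wz R Λ l := by
  have hΛ0 : 0 < Λ := by linarith
  have hcont : Continuous fun α : ℝ => R α * Real.exp (-(Λ * α - l) ^ 2 / 2) := by fun_prop
  have ha : 0 ≤ l / Λ := div_nonneg hl0 hΛ0.le
  have hab : l / Λ ≤ (l + 1) / Λ := by
    apply div_le_div_of_nonneg_right _ hΛ0.le
    linarith
  have hb : (l + 1) / Λ ≤ 3 / 4 := by
    rw [div_le_iff₀ hΛ0]
    linarith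
  have hb1 : (l + 1) / Λ ≤ 1 := hb.trans (by norm_num)
  have e1 : ∫ α in (l / Λ)..((l + 1) / Λ), R α * Real.exp (-(Λ * α - l) ^ 2 / 2) ≤ Wz R Λ l := by
    unfold Wz
    refine intervalIntegral.integral_mono_interval ha hab hb1 ?_
      (hcont.intervalIntegrable _ _)
    refine (ae_restrict_iff' measurableSet_Ioc).2 (Filter.Eventually.of_forall fun α hα => ?_)
    exact mul_nonneg (h2 α ⟨hα.1.le, hα.2⟩) (Real.exp_pos _).le
  have e2 : ∫ α in (l / Λ)..((l + 1) / Λ), (r0 * Real.exp (-(1 / 2)) : ℝ) ≤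
      ∫ α in (l / Λ)..((l + 1) / Λ), R α * Real.exp (-(Λ * α - l) ^ 2 / 2) := by
    refine intervalIntegral.integral_mono_on hab (by simp) (hcont.intervalIntegrable _ _)
      fun α hα => ?_
    have h3 : r0 ≤ R α := h1 α ⟨ha.trans hα.1, hα.2.trans hb⟩
    have h4 : 0 ≤ Λ * α - l := by
      have := (div_le_iff₀ hΛ0).1 hα.1
      linarith
    have h5 : Λ * α - l ≤ 1 := by
      have := (le_div_iff₀ hΛ0).1 hα.2
      linarith
    have h6 : Real.exp (-(1 / 2)) ≤ Real.exp (-(Λ * α - l) ^ 2 / 2) := by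
      apply Real.exp_le_exp.2
      nlinarith
    exact mul_le_mul h3 h6 (Real.exp_pos _).le (hr0.le.trans h3)
  rw [intervalIntegral.integral_const] at e2
  refine le_trans (le_of_eq ?_) (e2.trans e1)
  rw [smul_eq_mul, ← sub_div]
  field_simp
  ring

theorem norm_dz (R : ℝ → ℝ) (Λ L : ℝ) (b : ℕ → ℂ) (n : ℕ) (hn : 2 ≤ n) :
    ‖dz R Λ L b n‖ ^ 2 = 2 / Real.pi * Wz R Λ (Real.log n) ^ 2 * (‖b n‖ ^ 2 / n) := by
  have hn0 : (0 : ℝ) < n := by exact_mod_cast (by omega : 0 < n)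
  have h1 : n ≠ 1 := by omega
  unfold dz
  rw [if_neg h1, zero_sub, norm_mul, norm_neg, norm_mul, norm_inv, Complex.norm_real,
    Complex.norm_real, Real.norm_eq_abs, Real.norm_eq_abs, abs_of_nonneg (Real.sqrt_nonneg (n : ℝ)),
    mul_pow, mul_pow, sq_abs, mul_pow, inv_pow, Real.sq_sqrt hn0.le, Real.sq_sqrt (by positivity)]
  ring

theorem t_LOW : P_LOW := by
  intro R hR hpos hnn D c1 b hD hc1 hb hev
  obtain ⟨r0, hr0, hr⟩ : ∃ r0 : ℝ, 0 < r0 ∧ ∀ α ∈ Set.Icc (0 : ℝ) (3 / 4), r0 ≤ R α := by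
    obtain ⟨α0, hα0, hmin⟩ := (isCompact_Icc (a := (0 : ℝ)) (b := 3 / 4)).exists_isMinOn
      ⟨0, by constructor <;> norm_num⟩ hR.continuousOn
    exact ⟨R α0, hpos α0 hα0, fun α hα => hmin hα⟩
  obtain ⟨X0, hX0⟩ := Filter.eventually_atTop.1 hev
  set η : ℝ := c1 / (4 * (D ^ 2 + 1)) with hη
  have hη0 : 0 < η := by positivity
  have hDη : D ^ 2 * η ≤ c1 / 4 := by
    rw [hη, mul_div_assoc', div_le_div_iff₀ (by positivity) (by norm_num)]
    nlinarith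
  refine ⟨2 / Real.pi * (r0 * Real.exp (-(1 / 2))) ^ 2 * (η * c1 / 8),
    4 + 48 * D ^ 2 / c1 + 2 * |X0|, by positivity, ?_, ?_⟩
  · have : 0 ≤ 48 * D ^ 2 / c1 := by positivity
    have := abs_nonneg X0
    linarith
  intro Λ L N hΛ hN
  have hq : 0 ≤ 48 * D ^ 2 / c1 := by positivity
  have hX0' := abs_nonneg X0
  have hΛ4 : 4 ≤ Λ := by linarith
  have hΛ0 : 0 < Λ := by linarith
  have hΛD : 6 * D ^ 2 ≤ c1 * Λ / 8 := by
    have h1 : 48 * D ^ 2 / c1 ≤ Λ := by linarith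
    rw [div_le_iff₀ hc1] at h1
    linarith
  set x : ℝ := Real.exp (Λ / 2) with hx
  set y : ℝ := Real.exp (η * Λ / 2) with hy
  have hlogx : Real.log x = Λ / 2 := Real.log_exp _
  have hlogy : Real.log y = η * Λ / 2 := Real.log_exp _
  have hxX : X0 ≤ x := by
    have h1 : Λ / 2 + 1 ≤ x := Real.add_one_le_exp _
    have h2 := le_abs_self X0
    linarith
  have hx1 : 1 ≤ x := Real.one_le_exp (by linarith)
  have hy1 : 1 ≤ y := Real.one_le_exp (by positivity)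
  have hmain := hX0 x hxX
  rw [hlogx] at hmain
  set P := (Finset.Icc 1 ⌊x⌋₊).filter Nat.Prime with hP
  set F : ℕ → ℝ := fun n => ‖b n‖ ^ 2 / (n * Real.log n) with hF
  have hsplit := Finset.sum_filter_add_sum_filter_not P (fun n => n ≤ ⌊y⌋₊) F
  -- small primes
  have hsmall : ∑ n ∈ P.filter (fun n => n ≤ ⌊y⌋₊), F n ≤ D ^ 2 * (η * Λ / 2 + 6) := by
    have h1 : ∑ n ∈ P.filter (fun n => n ≤ ⌊y⌋₊), F n ≤
        ∑ n ∈ P.filter (fun n => n ≤ ⌊y⌋₊), D ^ 2 * (ArithmeticFunction.vonMangoldt n / n) := by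
      refine Finset.sum_le_sum fun n hn => ?_
      have hnP := (Finset.mem_filter.1 (Finset.mem_filter.1 hn).1).2
      have hn0 : (0 : ℝ) < n := by exact_mod_cast hnP.pos
      have hlog : 0 < Real.log n := Real.log_pos (by exact_mod_cast hnP.one_lt)
      have h2 := hb n
      rw [ArithmeticFunction.vonMangoldt_apply_prime hnP] at h2 ⊢
      have h3 : ‖b n‖ ^ 2 ≤ (D * Real.log n) ^ 2 := pow_le_pow_left₀ (norm_nonneg _) h2 2
      show ‖b n‖ ^ 2 / (n * Real.log n) ≤ D ^ 2 * (Real.log n / n)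
      rw [div_le_iff₀ (by positivity)]
      refine h3.trans (le_of_eq ?_)
      field_simp
    have h2 : ∑ n ∈ P.filter (fun n => n ≤ ⌊y⌋₊), D ^ 2 * (ArithmeticFunction.vonMangoldt n / n) ≤
        ∑ n ∈ Finset.Icc 1 ⌊y⌋₊, D ^ 2 * (ArithmeticFunction.vonMangoldt n / n) := by
      refine Finset.sum_le_sum_of_subset_of_nonneg (fun n hn => ?_) fun n _ _ => ?_
      · have h3 := Finset.mem_filter.1 hn
        have h4 := Finset.mem_Icc.1 (Finset.mem_filter.1 h3.1).1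
        exact Finset.mem_Icc.2 ⟨h4.1, h3.2⟩
      · exact mul_nonneg (sq_nonneg _)
          (div_nonneg ArithmeticFunction.vonMangoldt_nonneg (Nat.cast_nonneg _))
    have hfl : 1 ≤ ⌊y⌋₊ := Nat.one_le_floor_iff y |>.2 hy1
    have h3 := H370.nt_mertens_upper ⌊y⌋₊ hfl
    have h4 : Real.log (⌊y⌋₊ : ℝ) ≤ η * Λ / 2 := by
      rw [← hlogy]
      exact Real.log_le_log (by exact_mod_cast hfl) (Nat.floor_le (by linarith))
    calc _ ≤ D ^ 2 * ∑ n ∈ Finset.Icc 1 ⌊y⌋₊, ArithmeticFunction.vonMangoldt n / n := by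
          rw [Finset.mul_sum]; exact h1.trans h2
      _ ≤ _ := mul_le_mul_of_nonneg_left (by linarith) (sq_nonneg _)
  -- large primes
  set Q := P.filter (fun n => ¬ n ≤ ⌊y⌋₊) with hQ
  have hQm : ∀ n ∈ Q, n.Prime ∧ 0 < Real.log n ∧ η * Λ / 2 ≤ Real.log n ∧ Real.log n ≤ Λ / 2 ∧
      n ∈ Finset.Icc 1 N := by
    intro n hn
    have h1 := Finset.mem_filter.1 hn
    have h2 := Finset.mem_filter.1 h1.1
    have h3 := Finset.mem_Icc.1 h2.1
    have hnP := h2.2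
    have hn0 : (0 : ℝ) < n := by exact_mod_cast hnP.pos
    have hyn : y < n := (Nat.floor_lt (by linarith)).1 (not_le.1 h1.2)
    have hnx : (n : ℝ) ≤ x := (Nat.le_floor_iff (by linarith)).1 h3.2
    refine ⟨hnP, Real.log_pos (by exact_mod_cast hnP.one_lt), ?_, ?_, ?_⟩
    · rw [← hlogy]; exact Real.log_le_log (by linarith) hyn.le
    · rw [← hlogx]; exact Real.log_le_log hn0 hnx
    · refine Finset.mem_Icc.2 ⟨h3.1, ?_⟩
      have h4 : x ≤ Real.exp Λ := Real.exp_le_exp.2 (by linarith)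
      exact_mod_cast hnx.trans (h4.trans hN)
  have hlarge : c1 * Λ / 4 ≤ ∑ n ∈ Q, F n := by
    have h1 : c1 * (Λ / 2) ≤ ∑ n ∈ P, F n := hmain
    nlinarith [mul_le_mul_of_nonneg_right hDη hΛ0.le]
  have hsum2 : η * Λ / 2 * ∑ n ∈ Q, F n ≤ ∑ n ∈ Q, ‖b n‖ ^ 2 / n := by
    rw [Finset.mul_sum]
    refine Finset.sum_le_sum fun n hn => ?_
    obtain ⟨hnP, hl0, hl1, -, -⟩ := hQm n hn
    have hn0 : (0 : ℝ) < n := by exact_mod_cast hnP.pos
    show η * Λ / 2 * (‖b n‖ ^ 2 / (n * Real.log n)) ≤ ‖b n‖ ^ 2 / n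
    rw [mul_div_assoc', div_le_div_iff₀ (by positivity) hn0]
    have h3 : 0 ≤ ‖b n‖ ^ 2 * n := by positivity
    nlinarith [mul_le_mul_of_nonneg_right hl1 h3]
  have hsum3 : η * c1 / 8 * Λ ^ 2 ≤ ∑ n ∈ Q, ‖b n‖ ^ 2 / n := by
    refine le_trans ?_ hsum2
    have h1 : 0 ≤ η * Λ / 2 := by positivity
    nlinarith [mul_le_mul_of_nonneg_left hlarge h1]
  have hfin : 2 / Real.pi * (r0 * Real.exp (-(1 / 2)) / Λ) ^ 2 * ∑ n ∈ Q, ‖b n‖ ^ 2 / n ≤
      ∑ n ∈ Finset.Icc 1 N, ‖dz R Λ L b n‖ ^ 2 := by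
    calc _ ≤ ∑ n ∈ Q, ‖dz R Λ L b n‖ ^ 2 := by
          rw [Finset.mul_sum]
          refine Finset.sum_le_sum fun n hn => ?_
          obtain ⟨hnP, hl0, -, hl2, -⟩ := hQm n hn
          rw [norm_dz R Λ L b n hnP.two_le]
          have hW := Wz_lower R hR r0 hr0 hr hnn Λ (Real.log n) hΛ4 hl0.le hl2
          have h1 : (r0 * Real.exp (-(1 / 2)) / Λ) ^ 2 ≤ Wz R Λ (Real.log n) ^ 2 :=
            pow_le_pow_left₀ (by positivity) hW 2
          refine mul_le_mul_of_nonneg_right ?_ (by positivity)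
          exact mul_le_mul_of_nonneg_left h1 (by positivity)
      _ ≤ _ := Finset.sum_le_sum_of_subset_of_nonneg (fun n hn => (hQm n hn).2.2.2.2)
          fun n _ _ => by positivity
  refine le_trans ?_ hfin
  calc 2 / Real.pi * (r0 * Real.exp (-(1 / 2))) ^ 2 * (η * c1 / 8)
      = 2 / Real.pi * (r0 * Real.exp (-(1 / 2)) / Λ) ^ 2 * (η * c1 / 8 * Λ ^ 2) := by
        field_simp
    _ ≤ _ := mul_le_mul_of_nonneg_left hsum3 (by positivity)

end Pool.Agent.Y641.ND
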